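import Pool.Agent.Q309.SP.Defs

/-!
# Countable forcing notions are strongly proper for stationarily many models
-/

set_option autoImplicit false

namespace Pool.Agent.Q309.SP

open Cardinal FirstOrder FirstOrder.Language

theorem exists_hull {θ : Cardinal.{0}} (s : Set (H θ)) (hs : IsCtb s) :
    ∃ E : LSet.ElementarySubstructure (H θ), s ⊆ E ∧ IsCtb (E : Set (H θ)) := by
  have hL : LSet.card ≤ ℵ₀ := by
    rw [FirstOrder.Language.card, Cardinal.mk_le_aleph0_iff]
    have h1 : ∀ n, Countable (LSet.Functions n) := fun n => inferInstanceAs (Countable Empty)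
    have h2 : ∀ n, Countable (LSet.Relations n) := fun n => by
      refine Function.Injective.countable (f := fun _ : MemRel n => (0 : ℕ)) fun a b _ => ?_
      cases a
      cases b
      rfl
    exact inferInstanceAs (Countable ((Σ l, LSet.Functions l) ⊕ Σ l, LSet.Relations l))
  obtain ⟨E, hE1, hE2⟩ := exists_elementarySubstructure_card_eq LSet (M := H θ) s
    (ℵ₀ : Cardinal.{1}) le_rfl
    (by
      rw [Cardinal.lift_aleph0, Cardinal.lift_le_aleph0]
      exact hs.1.le_aleph0)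
    (by
      rw [Cardinal.lift_aleph0, Cardinal.lift_le_aleph0]
      exact hL)
    (by
      rw [Cardinal.lift_aleph0, Cardinal.aleph0_le_lift]
      have h1 : Infinite s := hs.2.to_subtype
      have h2 : Infinite (H θ) := Infinite.of_injective (Subtype.val : s → H θ)
        Subtype.val_injective
      exact Cardinal.aleph0_le_mk _)
  refine ⟨E, hE1, ?_, ?_⟩
  · have hE3 : #E = (ℵ₀ : Cardinal.{1}) := by simpa using hE2
    exact Cardinal.le_aleph0_iff_set_countable.1 hE3.le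
  · exact hs.2.mono hE1

theorem mem_H_of_rank {θ : Cardinal.{0}} {x : ZFSet.{0}} (o : Ordinal.{0}) (hx : x.rank < o)
    (ho : #{y // y ∈ ZFSet.vonNeumann o} < Cardinal.lift.{1} θ) : x ∈ H θ :=
  ⟨ZFSet.vonNeumann o, ZFSet.isTransitive_vonNeumann o, ZFSet.mem_vonNeumann.2 hx, ho⟩

/-- The union of an increasing chain of elementary substructures is elementary. -/
theorem chain_elementary {θ : Cardinal.{0}} (b : ℕ → Set (H θ)) (hb : Monotone b)
    (E : ℕ → LSet.ElementarySubstructure (H θ)) (hE : ∀ n, b n ⊆ E n)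
    (hE' : ∀ n, (E n : Set (H θ)) ⊆ b (n + 1)) :
    ∃ F : LSet.ElementarySubstructure (H θ), (F : Set (H θ)) = ⋃ n, b n := by
  let S : LSet.Substructure (H θ) :=
    { carrier := ⋃ n, b n
      fun_mem := fun f _ _ => Empty.elim f }
  have hS : ∀ x : S, ∃ n, (x : H θ) ∈ b n := fun x => Set.mem_iUnion.1 x.2
  refine ⟨S.toElementarySubstructure ?_, rfl⟩
  intro n φ x a ha
  choose k hk using fun i => hS (x i)
  obtain ⟨K, hK⟩ : ∃ K, ∀ i, k i ≤ K := ⟨Finset.univ.sup k, fun i => Finset.le_sup (Finset.mem_univ i)⟩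
  have hx : ∀ i, (x i : H θ) ∈ E K := fun i => hE K (hb (hK i) (hk i))
  let x' : Fin n → E K := fun i => ⟨x i, hx i⟩
  have h1 : (φ.ex).Realize default (fun i => (x' i : H θ)) := by
    rw [BoundedFormula.realize_ex]
    exact ⟨a, ha⟩
  have h2 := (E K).subtype.map_boundedFormula φ.ex default x'
  have h3 : ((E K).subtype ∘ (default : Empty → E K)) = default := Subsingleton.elim _ _
  rw [h3] at h2
  have h4 : φ.ex.Realize (default : Empty → E K) x' := h2.1 h1
  rw [BoundedFormula.realize_ex] at h4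
  obtain ⟨c, hc⟩ := h4
  refine ⟨⟨(c : H θ), Set.mem_iUnion.2 ⟨K + 1, hE' K c.2⟩⟩, ?_⟩
  have h5 := (E K).subtype.map_boundedFormula φ default (Fin.snoc x' c)
  rw [h3] at h5
  have h6 := h5.2 hc
  have h7 : (E K).subtype ∘ (Fin.snoc x' c : Fin (n + 1) → E K) =
      (Fin.snoc (fun i => (x i : H θ)) (c : H θ) : Fin (n + 1) → H θ) := by
    funext i
    refine Fin.lastCases ?_ (fun i => ?_) i
    · simp
    · simp [x']
  rw [h7] at h6
  exact h6

/-- Every countably infinite forcing notion is strongly proper for stationarily many models. -/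
theorem stronglyProperStat_of_countable (P : Type) [Preorder P] [Countable P] [Infinite P] :
    StronglyProperStat P := by
  intro A Le e _
  let o : Ordinal.{0} := Order.succ (max A.rank Le.rank)
  have hsm : Small.{0} {y // y ∈ ZFSet.vonNeumann o} := inferInstance
  let θ₀ : Cardinal.{0} := Order.succ #(Shrink.{0} {y // y ∈ ZFSet.vonNeumann o})
  refine ⟨θ₀, fun θ hθ _ => ?_⟩
  have hcard : #{y // y ∈ ZFSet.vonNeumann o} < Cardinal.lift.{1} θ := by
    have h1 : #{y // y ∈ ZFSet.vonNeumann o} =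
        Cardinal.lift.{1} #(Shrink.{0} {y // y ∈ ZFSet.vonNeumann o}) := by
      have := Cardinal.lift_mk_eq'.2 ⟨equivShrink.{0} {y // y ∈ ZFSet.vonNeumann o}⟩
      simp
    rw [h1, Cardinal.lift_lt]
    exact (Order.lt_succ _).trans_le hθ
  have hA : A ∈ H θ := mem_H_of_rank o (Order.lt_succ_of_le (le_max_left _ _)) hcard
  have hLe : Le ∈ H θ := mem_H_of_rank o (Order.lt_succ_of_le (le_max_right _ _)) hcard
  have he : ∀ p : P, (e p).1 ∈ H θ := fun p => mem_H_of_rank o
    ((ZFSet.rank_lt_of_mem (e p).2).trans (Order.lt_succ_of_le (le_max_left _ _))) hcard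
  let s₀ : Set (H θ) := insert ⟨A, hA⟩ (insert ⟨Le, hLe⟩ (Set.range fun p => ⟨(e p).1, he p⟩))
  have hs₀ : IsCtb s₀ := by
    constructor
    · exact ((Set.countable_range _).insert _).insert _
    · refine Set.Infinite.mono ((Set.subset_insert _ _).trans (Set.subset_insert _ _)) ?_
      refine Set.infinite_range_of_injective fun p q h => ?_
      have h1 : (e p).1 = (e q).1 := Subtype.mk.inj h
      exact e.injective (Subtype.ext h1)
  intro C hC
  -- the two operations
  choose cl hcl1 hcl2 using hC.unbounded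
  choose hu hhu1 hhu2 using fun (s : Set (H θ)) (hs : IsCtb s) => exists_hull s hs
  -- the chain, in `C`
  let st : {b : Set (H θ) // b ∈ C} → {b : Set (H θ) // b ∈ C} := fun b =>
    ⟨cl (hu b.1 (hC.ctb _ b.2)) (hhu2 _ _), hcl1 _ _⟩
  let ch : ℕ → {b : Set (H θ) // b ∈ C} := fun n => st^[n] ⟨cl s₀ hs₀, hcl1 _ _⟩
  have hch : ∀ n, ch (n + 1) = st (ch n) := fun n => Function.iterate_succ_apply' _ _ _
  let E : ℕ → LSet.ElementarySubstructure (H θ) := fun n => hu (ch n).1 (hC.ctb _ (ch n).2)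
  have hE1 : ∀ n, (ch n).1 ⊆ E n := fun n => hhu1 _ _
  have hE2 : ∀ n, (E n : Set (H θ)) ⊆ (ch (n + 1)).1 := by
    intro n
    rw [hch]
    exact hcl2 _ _
  have hmono : Monotone fun n => (ch n).1 :=
    monotone_nat_of_le_succ fun n => (hE1 n).trans (hE2 n)
  obtain ⟨F, hF⟩ := chain_elementary (fun n => (ch n).1) hmono E hE1 hE2
  refine ⟨⋃ n, (ch n).1, hC.closed _ hmono fun n => (ch n).2, ⟨F, hF⟩, ?_⟩
  have hs₀' : s₀ ⊆ ⋃ n, (ch n).1 :=
    (hcl2 s₀ hs₀).trans (Set.subset_iUnion (fun n => (ch n).1) 0)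
  have hall : ∀ p : P, ∃ m ∈ ⋃ n, (ch n).1, (m : ZFSet.{0}) = e p := fun p =>
    ⟨⟨(e p).1, he p⟩, hs₀' (Or.inr (Or.inr ⟨p, rfl⟩)), rfl⟩
  refine ⟨⟨⟨A, hA⟩, hs₀' (Or.inl rfl), rfl⟩, ⟨⟨Le, hLe⟩, hs₀' (Or.inr (Or.inl rfl)), rfl⟩, ?_⟩
  intro p _
  refine ⟨p, le_rfl, fun r _ => ⟨r, hall r, fun s _ hs => ⟨s, le_rfl, hs⟩⟩⟩

end Pool.Agent.Q309.SP
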