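import Mathlib

/-!
# Forcing notions that are strongly proper for stationarily many models
-/

set_option autoImplicit false

namespace Pool.Agent.Q309.SP

open Cardinal FirstOrder FirstOrder.Language

/-- The set `H(θ)` of all sets that belong to a transitive set of size less than `θ`. -/
def H (θ : Cardinal.{0}) : Set ZFSet.{0} :=
  {x | ∃ t : ZFSet.{0}, t.IsTransitive ∧ x ∈ t ∧ #{y // y ∈ t} < Cardinal.lift.{1} θ}

/-- The relation symbols of the language of set theory. -/
inductive MemRel : ℕ → Type
  | mem : MemRel 2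

/-- The language of set theory. -/
def LSet : FirstOrder.Language.{0, 0} := ⟨fun _ => Empty, MemRel⟩

/-- `H(θ)` as a structure for the language of set theory. -/
instance (θ : Cardinal.{0}) : LSet.Structure (H θ) where
  funMap := fun f _ => Empty.elim f
  RelMap | .mem => fun t => (t 0).1 ∈ (t 1).1

section stationary

variable {S : Type 1}

/-- `b` is a countably infinite set. -/
def IsCtb (b : Set S) : Prop := b.Countable ∧ b.Infinite

/-- `C` is closed and unbounded in `[S]^ω`. -/
structure IsClub (C : Set (Set S)) : Prop where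
  ctb : ∀ b ∈ C, IsCtb b
  unbounded : ∀ a, IsCtb a → ∃ b ∈ C, a ⊆ b
  closed : ∀ b : ℕ → Set S, Monotone b → (∀ n, b n ∈ C) → (⋃ n, b n) ∈ C

/-- The set `T` of subsets of `S` is stationary in `[S]^ω`. -/
def IsStationary (T : Set (Set S)) : Prop :=
  ∀ C : Set (Set S), IsClub C → ∃ b ∈ C, b ∈ T

end stationary

/-- The condition `q` is strongly generic for the set `N` of conditions (`N` is the intersection
of an elementary submodel with the forcing notion): every `r ≤ q` has a residue `r' ∈ N` such that
all `s ≤ r'` in `N` are compatible with `r`. -/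
def StronglyGeneric {P : Type} [Preorder P] (N : Set P) (q : P) : Prop :=
  ∀ r ≤ q, ∃ r' ∈ N, ∀ s ∈ N, s ≤ r' → ∃ t, t ≤ s ∧ t ≤ r

/-- The forcing notion `P` is strongly proper for stationarily many models: for every copy
`(A, Le)` of `P` which is a set, and for all sufficiently large regular cardinals `θ`, the set of
the countable elementary submodels `M` of `H(θ)` that contain `(A, Le)` and for which every
condition in `M` has a strongly generic extension is stationary in `[H(θ)]^ω`. -/
def StronglyProperStat (P : Type) [Preorder P] : Prop :=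
  ∀ (A Le : ZFSet.{0}) (e : P ≃ {x // x ∈ A}),
    (∀ p q : P, ZFSet.pair (e p).1 (e q).1 ∈ Le ↔ p ≤ q) →
    ∃ θ₀ : Cardinal.{0}, ∀ θ : Cardinal.{0}, θ₀ ≤ θ → θ.IsRegular →
      IsStationary {M : Set (H θ) | (∃ E : LSet.ElementarySubstructure (H θ), (E : Set (H θ)) = M) ∧
        (∃ a ∈ M, (a : ZFSet.{0}) = A) ∧ (∃ l ∈ M, (l : ZFSet.{0}) = Le) ∧
        ∀ p : P, (∃ m ∈ M, (m : ZFSet.{0}) = e p) →
          ∃ q ≤ p, StronglyGeneric {r : P | ∃ m ∈ M, (m : ZFSet.{0}) = e r} q}

end Pool.Agent.Q309.SP
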